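import Pool.Agent.H51.Nev.L1Dual

open MeasureTheory Set Filter Topology
open scoped ENNReal ContDiff

namespace Pool.Agent.H51.Nev

variable {Ω : Type*} [MeasurableSpace Ω] (μ : Measure Ω) [IsFiniteMeasure μ]

/-- The hypotheses on the class of pairs (function, operator applied to the function). -/
structure Good (G : Set ((Ω → ℝ) × (Ω → ℝ))) : Prop where
  hne : G.Nonempty
  hlin : ∀ p ∈ G, ∀ q ∈ G, ∀ c : ℝ, p + c • q ∈ G
  hmeas : ∀ p ∈ G, Measurable p.1 ∧ Measurable p.2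
  hbdd : ∀ p ∈ G, ∃ C, ∀ x, |p.1 x| ≤ C ∧ |p.2 x| ≤ C

variable {G : Set ((Ω → ℝ) × (Ω → ℝ))}

theorem Good.zero_mem (hG : Good G) : (0 : (Ω → ℝ) × (Ω → ℝ)) ∈ G := by
  obtain ⟨p, hp⟩ := hG.hne
  have := hG.hlin p hp p hp (-1)
  simpa using this

theorem Good.int1 (hG : Good G) {p : (Ω → ℝ) × (Ω → ℝ)} (hp : p ∈ G) : Integrable p.1 μ := by
  obtain ⟨C, hC⟩ := hG.hbdd p hp
  exact Integrable.of_bound (hG.hmeas p hp).1.aestronglyMeasurable C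
    (Eventually.of_forall fun x => (hC x).1)

theorem Good.int2 (hG : Good G) {p : (Ω → ℝ) × (Ω → ℝ)} (hp : p ∈ G) : Integrable p.2 μ := by
  obtain ⟨C, hC⟩ := hG.hbdd p hp
  exact Integrable.of_bound (hG.hmeas p hp).2.aestronglyMeasurable C
    (Eventually.of_forall fun x => (hC x).2)

/-- The graph of the operator as a subspace of `L¹ × L¹`. -/
noncomputable def grS (hG : Good G) : Submodule ℝ (Lp ℝ 1 μ × Lp ℝ 1 μ) where
  carrier := {z | ∃ p ∈ G, (z.1 : Ω → ℝ) =ᵐ[μ] p.1 ∧ (z.2 : Ω → ℝ) =ᵐ[μ] p.2}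
  add_mem' := by
    rintro z w ⟨p, hp, h1, h2⟩ ⟨q, hq, h3, h4⟩
    refine ⟨p + (1 : ℝ) • q, hG.hlin p hp q hq 1, ?_, ?_⟩
    · filter_upwards [Lp.coeFn_add z.1 w.1, h1, h3] with x a b c
      rw [Prod.fst_add, a, Pi.add_apply, b, c]
      simp
    · filter_upwards [Lp.coeFn_add z.2 w.2, h2, h4] with x a b c
      rw [Prod.snd_add, a, Pi.add_apply, b, c]
      simp
  zero_mem' := ⟨0, hG.zero_mem, Lp.coeFn_zero _ _ _, Lp.coeFn_zero _ _ _⟩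
  smul_mem' := by
    rintro c z ⟨p, hp, h1, h2⟩
    refine ⟨0 + c • p, hG.hlin 0 hG.zero_mem p hp c, ?_, ?_⟩
    · filter_upwards [Lp.coeFn_smul c z.1, h1] with x a b
      rw [Prod.smul_fst, a, Pi.smul_apply, b]
      simp
    · filter_upwards [Lp.coeFn_smul c z.2, h2] with x a b
      rw [Prod.smul_snd, a, Pi.smul_apply, b]
      simp

/-- `lam U - W`. -/
noncomputable def T (lam : ℝ) : Lp ℝ 1 μ × Lp ℝ 1 μ →L[ℝ] Lp ℝ 1 μ :=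
  lam • ContinuousLinearMap.fst ℝ _ _ - ContinuousLinearMap.snd ℝ _ _

theorem T_apply (lam : ℝ) (z : Lp ℝ 1 μ × Lp ℝ 1 μ) : T μ lam z = lam • z.1 - z.2 := rfl

theorem T_coe (lam : ℝ) (z : Lp ℝ 1 μ × Lp ℝ 1 μ) :
    (T μ lam z : Ω → ℝ) =ᵐ[μ] fun x => lam * z.1 x - z.2 x := by
  rw [T_apply]
  filter_upwards [Lp.coeFn_sub (lam • z.1) z.2, Lp.coeFn_smul lam z.1] with x a b
  rw [a, Pi.sub_apply, b, Pi.smul_apply, smul_eq_mul]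

theorem mem_closure_T (hG : Good G) (lam : ℝ) (f : Lp ℝ 1 μ)
    (h : ∀ γ : Ω → ℝ, Measurable γ → (∃ C, ∀ x, |γ x| ≤ C) →
      (∀ p ∈ G, ∫ x, γ x * (lam * p.1 x - p.2 x) ∂μ = 0) → ∫ x, γ x * f x ∂μ = 0) :
    f ∈ closure (((grS μ hG).map (T μ lam).toLinearMap : Submodule ℝ (Lp ℝ 1 μ)) :
      Set (Lp ℝ 1 μ)) := by
  apply mem_closure_of_annihilator
  intro γ hγ hb hs
  apply h γ hγ hb
  intro p hp
  have := hs (T μ lam ((hG.int1 μ hp).toL1 p.1, (hG.int2 μ hp).toL1 p.2))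
    ⟨_, ⟨p, hp, Integrable.coeFn_toL1 (hG.int1 μ hp), Integrable.coeFn_toL1 (hG.int2 μ hp)⟩, rfl⟩
  rw [← this]
  apply integral_congr_ae
  filter_upwards [T_coe μ lam ((hG.int1 μ hp).toL1 p.1, (hG.int2 μ hp).toL1 p.2),
    Integrable.coeFn_toL1 (hG.int1 μ hp), Integrable.coeFn_toL1 (hG.int2 μ hp)] with x a b c
  simp only [a, b, c]

/-- F. Ergodicity and Hahn-Banach. -/
theorem fa_ergodic {Ω : Type*} [MeasurableSpace Ω] (μ : Measure Ω) [IsFiniteMeasure μ]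
    (G : Set ((Ω → ℝ) × (Ω → ℝ))) (hne : G.Nonempty)
    (hlin : ∀ p ∈ G, ∀ q ∈ G, ∀ c : ℝ, p + c • q ∈ G)
    (hmeas : ∀ p ∈ G, Measurable p.1 ∧ Measurable p.2)
    (hbdd : ∀ p ∈ G, ∃ C, ∀ x, |p.1 x| ≤ C ∧ |p.2 x| ≤ C)
    (hint : ∀ p ∈ G, ∫ x, p.2 x ∂μ = 0)
    (herg : ∀ γ : Ω → ℝ, Measurable γ → (∃ C, ∀ x, |γ x| ≤ C) →
      (∀ p ∈ G, ∫ x, γ x * p.2 x ∂μ = 0) → ∃ c : ℝ, γ =ᵐ[μ] fun _ => c)
    (f : Ω → ℝ) (hf : Measurable f) (hB : ∃ B, ∀ x, |f x| ≤ B) (hfint : ∫ x, f x ∂μ = 0)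
    (ε : ℝ) (hε : 0 < ε) :
    ∃ p ∈ G, ∫ x, |f x - p.2 x| ∂μ ≤ ε := by
  have _ := hint
  have hG : Good G := ⟨hne, hlin, hmeas, hbdd⟩
  obtain ⟨B, hB⟩ := hB
  have hfi : Integrable f μ :=
    Integrable.of_bound hf.aestronglyMeasurable B (Eventually.of_forall hB)
  have hcl := mem_closure_T μ hG 0 (hfi.toL1 f) (by
    intro γ hγ hb hs
    obtain ⟨c, hc⟩ := herg γ hγ hb (by
      intro p hp
      have := hs p hp
      simp only [zero_mul, zero_sub, mul_neg, integral_neg, neg_eq_zero] at this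
      exact this)
    have : ∫ x, γ x * (hfi.toL1 f) x ∂μ = ∫ x, c * f x ∂μ := by
      apply integral_congr_ae
      filter_upwards [hc, Integrable.coeFn_toL1 hfi] with x a b
      rw [a, b]
    rw [this, integral_const_mul, hfint, mul_zero])
  rw [Metric.mem_closure_iff] at hcl
  obtain ⟨s, ⟨z, ⟨p, hp, h1, h2⟩, rfl⟩, hd⟩ := hcl ε hε
  refine ⟨0 + (-1 : ℝ) • p, hlin 0 hG.zero_mem p hp _, ?_⟩
  rw [dist_eq_norm, L1.norm_eq_integral_norm] at hd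
  refine le_of_eq_of_le ?_ hd.le
  apply integral_congr_ae
  filter_upwards [Lp.coeFn_sub (hfi.toL1 f) ((T μ 0).toLinearMap z), Integrable.coeFn_toL1 hfi,
    T_coe μ 0 z, h2] with x a b c d
  rw [a, Pi.sub_apply, b]
  change _ = ‖f x - (T μ 0 z) x‖
  rw [c]
  simp [d]

/-- Elements of the closure of the graph are limits of fast converging sequences in `G`. -/
theorem fast (hG : Good G) {z : Lp ℝ 1 μ × Lp ℝ 1 μ}
    (hz : z ∈ closure (grS μ hG : Set (Lp ℝ 1 μ × Lp ℝ 1 μ))) :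
    ∃ u : ℕ → (Ω → ℝ) × (Ω → ℝ), (∀ j, u j ∈ G) ∧
      ∫⁻ x, ∑' j, (‖(u j).1 x - z.1 x‖ₑ + ‖(u j).2 x - z.2 x‖ₑ) ∂μ < ⊤ := by
  rw [Metric.mem_closure_iff] at hz
  have hpos : ∀ j : ℕ, (0 : ℝ) < (1 / 2) ^ j := fun j => by positivity
  choose w hw hd using fun j : ℕ => hz ((1 / 2) ^ j) (hpos j)
  choose u hu h1 h2 using hw
  refine ⟨u, hu, ?_⟩
  have hm1 : ∀ j, AEMeasurable (fun x => ‖(u j).1 x - z.1 x‖ₑ) μ := fun j =>
    ((hG.int1 μ (hu j)).1.sub (Lp.aestronglyMeasurable z.1)).enorm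
  have hm2 : ∀ j, AEMeasurable (fun x => ‖(u j).2 x - z.2 x‖ₑ) μ := fun j =>
    ((hG.int2 μ (hu j)).1.sub (Lp.aestronglyMeasurable z.2)).enorm
  have hm3 : ∀ j, AEMeasurable (fun x => ‖(u j).1 x - z.1 x‖ₑ + ‖(u j).2 x - z.2 x‖ₑ) μ :=
    fun j => (hm1 j).add (hm2 j)
  rw [lintegral_tsum hm3]
  have hle : ∀ j, ∫⁻ x, (‖(u j).1 x - z.1 x‖ₑ + ‖(u j).2 x - z.2 x‖ₑ) ∂μ ≤
      2 * ENNReal.ofReal ((1 / 2) ^ j) := by
    intro j
    rw [lintegral_add_left' (hm1 j), two_mul]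
    have hn := (hd j).le
    rw [dist_comm, dist_eq_norm, Prod.norm_def, max_le_iff] at hn
    refine add_le_add ?_ ?_
    · have h3 : ∫⁻ x, ‖(u j).1 x - z.1 x‖ₑ ∂μ = ∫⁻ x, ‖((w j - z).1 : Lp ℝ 1 μ) x‖ₑ ∂μ := by
        apply lintegral_congr_ae
        filter_upwards [Lp.coeFn_sub (w j).1 z.1, h1 j] with x a b
        rw [Prod.fst_sub, a, Pi.sub_apply, b]
      rw [h3, ← eLpNorm_one_eq_lintegral_enorm, ← ENNReal.ofReal_toReal (Lp.eLpNorm_ne_top _),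
        ← Lp.norm_def]
      exact ENNReal.ofReal_le_ofReal hn.1
    · have h3 : ∫⁻ x, ‖(u j).2 x - z.2 x‖ₑ ∂μ = ∫⁻ x, ‖((w j - z).2 : Lp ℝ 1 μ) x‖ₑ ∂μ := by
        apply lintegral_congr_ae
        filter_upwards [Lp.coeFn_sub (w j).2 z.2, h2 j] with x a b
        rw [Prod.snd_sub, a, Pi.sub_apply, b]
      rw [h3, ← eLpNorm_one_eq_lintegral_enorm, ← ENNReal.ofReal_toReal (Lp.eLpNorm_ne_top _),
        ← Lp.norm_def]
      exact ENNReal.ofReal_le_ofReal hn.2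
  refine (ENNReal.tsum_le_tsum hle).trans_lt ?_
  rw [ENNReal.tsum_mul_left]
  apply ENNReal.mul_lt_top (by norm_num)
  rw [← ENNReal.ofReal_tsum_of_nonneg (fun j => (hpos j).le) (summable_geometric_two)]
  exact ENNReal.ofReal_lt_top

theorem fast_tendsto {z : Lp ℝ 1 μ × Lp ℝ 1 μ} {u : ℕ → (Ω → ℝ) × (Ω → ℝ)}
    (hG : Good G) (hu : ∀ j, u j ∈ G)
    (h : ∫⁻ x, ∑' j, (‖(u j).1 x - z.1 x‖ₑ + ‖(u j).2 x - z.2 x‖ₑ) ∂μ < ⊤) :
    ∀ᵐ x ∂μ, Tendsto (fun j => (u j).1 x) atTop (𝓝 (z.1 x)) ∧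
        Tendsto (fun j => (u j).2 x) atTop (𝓝 (z.2 x)) := by
  have hm1 : ∀ j, AEMeasurable (fun x => ‖(u j).1 x - z.1 x‖ₑ) μ := fun j =>
    ((hG.int1 μ (hu j)).1.sub (Lp.aestronglyMeasurable z.1)).enorm
  have hm2 : ∀ j, AEMeasurable (fun x => ‖(u j).2 x - z.2 x‖ₑ) μ := fun j =>
    ((hG.int2 μ (hu j)).1.sub (Lp.aestronglyMeasurable z.2)).enorm
  have hm3 : ∀ j, AEMeasurable (fun x => ‖(u j).1 x - z.1 x‖ₑ + ‖(u j).2 x - z.2 x‖ₑ) μ :=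
    fun j => (hm1 j).add (hm2 j)
  have hae := ae_lt_top' (AEMeasurable.ennreal_tsum hm3) h.ne
  filter_upwards [hae] with x hx
  have ht := ENNReal.tendsto_atTop_zero_of_tsum_ne_top hx.ne
  constructor
  · rw [tendsto_iff_edist_tendsto_0]
    refine tendsto_of_tendsto_of_tendsto_of_le_of_le tendsto_const_nhds ht (fun _ => zero_le) ?_
    intro j
    change edist _ _ ≤ ‖(u j).1 x - z.1 x‖ₑ + ‖(u j).2 x - z.2 x‖ₑ
    rw [edist_eq_enorm_sub]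
    exact le_self_add
  · rw [tendsto_iff_edist_tendsto_0]
    refine tendsto_of_tendsto_of_tendsto_of_le_of_le tendsto_const_nhds ht (fun _ => zero_le) ?_
    intro j
    change edist _ _ ≤ ‖(u j).1 x - z.1 x‖ₑ + ‖(u j).2 x - z.2 x‖ₑ
    rw [edist_eq_enorm_sub]
    exact le_add_self

theorem fast_sum {z : Lp ℝ 1 μ × Lp ℝ 1 μ} {u : ℕ → (Ω → ℝ) × (Ω → ℝ)}
    (hG : Good G) (hu : ∀ j, u j ∈ G)
    (h : ∫⁻ x, ∑' j, (‖(u j).1 x - z.1 x‖ₑ + ‖(u j).2 x - z.2 x‖ₑ) ∂μ < ⊤) :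
    ∫⁻ x, (‖(u 0).1 x‖ₑ + ‖(u 0).2 x‖ₑ + ∑' j, (‖(u (j + 1)).1 x - (u j).1 x‖ₑ +
        ‖(u (j + 1)).2 x - (u j).2 x‖ₑ)) ∂μ < ⊤ := by
  set e : ℕ → Ω → ℝ≥0∞ := fun j x => ‖(u j).1 x - z.1 x‖ₑ + ‖(u j).2 x - z.2 x‖ₑ with he
  have hm1 : ∀ j, AEMeasurable (fun x => ‖(u j).1 x - z.1 x‖ₑ) μ := fun j =>
    ((hG.int1 μ (hu j)).1.sub (Lp.aestronglyMeasurable z.1)).enorm
  have hm2 : ∀ j, AEMeasurable (fun x => ‖(u j).2 x - z.2 x‖ₑ) μ := fun j =>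
    ((hG.int2 μ (hu j)).1.sub (Lp.aestronglyMeasurable z.2)).enorm
  have hpt : ∀ x, ‖(u 0).1 x‖ₑ + ‖(u 0).2 x‖ₑ + ∑' j, (‖(u (j + 1)).1 x - (u j).1 x‖ₑ +
        ‖(u (j + 1)).2 x - (u j).2 x‖ₑ) ≤
        ‖(u 0).1 x‖ₑ + (‖(u 0).2 x‖ₑ + 2 * ∑' j, e j x) := by
    intro x
    rw [add_assoc]
    gcongr
    have h1 : ∀ j, (‖(u (j + 1)).1 x - (u j).1 x‖ₑ + ‖(u (j + 1)).2 x - (u j).2 x‖ₑ) ≤
        e (j + 1) x + e j x := by
      intro j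
      simp only [he]
      have a1 : ‖(u (j + 1)).1 x - (u j).1 x‖ₑ ≤ ‖(u (j + 1)).1 x - z.1 x‖ₑ + ‖(u j).1 x - z.1 x‖ₑ := by
        have := enorm_sub_le (a := (u (j + 1)).1 x - z.1 x) (b := (u j).1 x - z.1 x)
        simpa using this
      have a2 : ‖(u (j + 1)).2 x - (u j).2 x‖ₑ ≤ ‖(u (j + 1)).2 x - z.2 x‖ₑ + ‖(u j).2 x - z.2 x‖ₑ := by
        have := enorm_sub_le (a := (u (j + 1)).2 x - z.2 x) (b := (u j).2 x - z.2 x)
        simpa using this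
      calc _ ≤ (‖(u (j + 1)).1 x - z.1 x‖ₑ + ‖(u j).1 x - z.1 x‖ₑ) +
            (‖(u (j + 1)).2 x - z.2 x‖ₑ + ‖(u j).2 x - z.2 x‖ₑ) := add_le_add a1 a2
        _ = _ := by ring
    calc _ ≤ ∑' j, (e (j + 1) x + e j x) := ENNReal.tsum_le_tsum h1
      _ = (∑' j, e (j + 1) x) + ∑' j, e j x := ENNReal.tsum_add
      _ ≤ (∑' j, e j x) + ∑' j, e j x := by
          exact add_le_add (ENNReal.tsum_comp_le_tsum_of_injective (add_left_injective 1)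
            (fun j => e j x)) le_rfl
      _ = _ := by rw [two_mul]
  refine (lintegral_mono hpt).trans_lt ?_
  rw [lintegral_add_left' ((hG.int1 μ (hu 0)).1.enorm),
    lintegral_add_left' ((hG.int2 μ (hu 0)).1.enorm), lintegral_const_mul' _ _ (by norm_num)]
  exact ENNReal.add_lt_top.2 ⟨(hG.int1 μ (hu 0)).2, ENNReal.add_lt_top.2
    ⟨(hG.int2 μ (hu 0)).2, ENNReal.mul_lt_top (by norm_num) h⟩⟩

/-- Dissipativity passes to the closure of the graph. -/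
theorem diss_closure (hG : Good G)
    (hdiss : ∀ p ∈ G, ∀ β : ℝ → ℝ, ContDiff ℝ ∞ β → Monotone β → (∀ x, |β x| ≤ 1) →
      ∫ x, β (p.1 x) * p.2 x ∂μ ≤ 0)
    {z : Lp ℝ 1 μ × Lp ℝ 1 μ}
    (hz : z ∈ closure (grS μ hG : Set (Lp ℝ 1 μ × Lp ℝ 1 μ)))
    {β : ℝ → ℝ} (hβ : ContDiff ℝ ∞ β) (hmon : Monotone β) (hb : ∀ x, |β x| ≤ 1) :
    ∫ x, β (z.1 x) * z.2 x ∂μ ≤ 0 := by
  obtain ⟨u, hu, hfin⟩ := fast μ hG hz
  have hm1 : ∀ j, AEMeasurable (fun x => ‖(u j).1 x - z.1 x‖ₑ) μ := fun j =>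
    ((hG.int1 μ (hu j)).1.sub (Lp.aestronglyMeasurable z.1)).enorm
  have hm2 : ∀ j, AEMeasurable (fun x => ‖(u j).2 x - z.2 x‖ₑ) μ := fun j =>
    ((hG.int2 μ (hu j)).1.sub (Lp.aestronglyMeasurable z.2)).enorm
  set E : Ω → ℝ≥0∞ := fun x => ∑' j, (‖(u j).1 x - z.1 x‖ₑ + ‖(u j).2 x - z.2 x‖ₑ) with hE
  have hEm : AEMeasurable E μ := AEMeasurable.ennreal_tsum fun j => (hm1 j).add (hm2 j)
  have hae : ∀ᵐ x ∂μ, E x < ⊤ := ae_lt_top' hEm hfin.ne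
  have ht := fast_tendsto μ hG hu hfin
  have hlim : Tendsto (fun j => ∫ x, β ((u j).1 x) * (u j).2 x ∂μ) atTop
      (𝓝 (∫ x, β (z.1 x) * z.2 x ∂μ)) := by
    apply tendsto_integral_of_dominated_convergence (fun x => ‖z.2 x‖ + (E x).toReal)
    · intro j
      exact ((hβ.continuous.comp_aestronglyMeasurable (hG.int1 μ (hu j)).1)).mul
        (hG.int2 μ (hu j)).1
    · refine (L1.integrable_coeFn z.2).norm.add ?_
      exact integrable_toReal_of_lintegral_ne_top hEm hfin.ne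
    · intro j
      filter_upwards [hae] with x hx
      have h1 : ‖(u j).2 x - z.2 x‖ ≤ (E x).toReal := by
        rw [← toReal_enorm]
        apply ENNReal.toReal_mono hx.ne
        refine le_trans ?_ (ENNReal.le_tsum j)
        exact le_add_self
      have h2 : ‖(u j).2 x‖ ≤ ‖z.2 x‖ + ‖(u j).2 x - z.2 x‖ := by
        have := norm_add_le (z.2 x) ((u j).2 x - z.2 x)
        simpa using this
      rw [norm_mul]
      calc ‖β ((u j).1 x)‖ * ‖(u j).2 x‖ ≤ 1 * ‖(u j).2 x‖ :=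
            mul_le_mul_of_nonneg_right (hb _) (norm_nonneg _)
        _ ≤ _ := by linarith
    · filter_upwards [ht] with x hx
      exact ((hβ.continuous.tendsto _).comp hx.1).mul hx.2
  exact le_of_tendsto' hlim fun j => hdiss (u j) (hu j) β hβ hmon hb

end Pool.Agent.H51.Nev
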