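import Pool.Agent.H51.Nev.Graph

open MeasureTheory Set Filter Topology
open scoped ENNReal ContDiff NNReal

namespace Pool.Agent.H51.Nev

variable {Ω : Type*} [MeasurableSpace Ω] {μ : Measure Ω} [IsFiniteMeasure μ]
variable {G : Set ((Ω → ℝ) × (Ω → ℝ))}

/-- Dissipativity hypothesis. -/
def Diss (μ : Measure Ω) (G : Set ((Ω → ℝ) × (Ω → ℝ))) : Prop :=
  ∀ p ∈ G, ∀ β : ℝ → ℝ, ContDiff ℝ ∞ β → Monotone β → (∀ x, |β x| ≤ 1) →
      ∫ x, β (p.1 x) * p.2 x ∂μ ≤ 0

/-- closure of the graph -/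
noncomputable def A (μ : Measure Ω) [IsFiniteMeasure μ] (hG : Good G) :
    Submodule ℝ (Lp ℝ 1 μ × Lp ℝ 1 μ) := (grS μ hG).topologicalClosure

theorem meas_gt (U : Lp ℝ 1 μ) (c : ℝ) : MeasurableSet {x | c < U x} :=
  measurableSet_lt measurable_const (Lp.stronglyMeasurable U).measurable

theorem meas_lt (U : Lp ℝ 1 μ) (c : ℝ) : MeasurableSet {x | U x < c} :=
  measurableSet_lt (Lp.stronglyMeasurable U).measurable measurable_const

/-- Test with indicator functions. -/
theorem ind_le (hG : Good G) (hd : Diss μ G) {z : Lp ℝ 1 μ × Lp ℝ 1 μ} (hz : z ∈ A μ hG) (c : ℝ) :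
    ∫ x in {x | c < z.1 x}, z.2 x ∂μ ≤ 0 := by
  rw [← integral_indicator (meas_gt z.1 c)]
  have hlim : Tendsto (fun k : ℕ => ∫ x, Real.smoothTransition ((k : ℝ) * (z.1 x - c)) * z.2 x ∂μ)
      atTop (𝓝 (∫ x, ({x | c < z.1 x}).indicator (fun x => z.2 x) x ∂μ)) := by
    apply tendsto_integral_of_dominated_convergence (fun x => ‖z.2 x‖)
    · intro k
      refine AEStronglyMeasurable.mul ?_ (Lp.aestronglyMeasurable z.2)
      exact Real.smoothTransition.continuous.comp_aestronglyMeasurable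
        (((Lp.aestronglyMeasurable z.1).sub aestronglyMeasurable_const).const_mul _)
    · exact (L1.integrable_coeFn z.2).norm
    · intro k
      refine Eventually.of_forall fun x => ?_
      rw [norm_mul, Real.norm_of_nonneg (Real.smoothTransition.nonneg _)]
      exact mul_le_of_le_one_left (norm_nonneg _) (Real.smoothTransition.le_one _)
    · refine Eventually.of_forall fun x => ?_
      by_cases hx : c < z.1 x
      · rw [indicator_of_mem (by exact hx)]
        have hpos : 0 < z.1 x - c := sub_pos.2 hx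
        have hev : ∀ᶠ k : ℕ in atTop, Real.smoothTransition ((k : ℝ) * (z.1 x - c)) * z.2 x =
            z.2 x := by
          obtain ⟨N, hN⟩ := exists_nat_gt (1 / (z.1 x - c))
          filter_upwards [eventually_ge_atTop N] with k hk
          have h1 : 1 ≤ (k : ℝ) * (z.1 x - c) := by
            rw [div_lt_iff₀ hpos] at hN
            have : (N : ℝ) * (z.1 x - c) ≤ (k : ℝ) * (z.1 x - c) :=
              mul_le_mul_of_nonneg_right (by exact_mod_cast hk) hpos.le
            linarith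
          rw [Real.smoothTransition.one_of_one_le h1, one_mul]
        exact tendsto_const_nhds.congr' (hev.mono fun k hk => hk.symm)
      · rw [indicator_of_notMem (by exact hx)]
        have hev : ∀ k : ℕ, Real.smoothTransition ((k : ℝ) * (z.1 x - c)) * z.2 x = 0 := by
          intro k
          rw [Real.smoothTransition.zero_of_nonpos, zero_mul]
          exact mul_nonpos_of_nonneg_of_nonpos (Nat.cast_nonneg k) (sub_nonpos.2 (not_lt.1 hx))
        simp only [hev]
        exact tendsto_const_nhds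
  refine le_of_tendsto' hlim fun k => ?_
  refine diss_closure μ hG hd hz (β := fun y => Real.smoothTransition ((k : ℝ) * (y - c))) ?_ ?_ ?_
  · exact Real.smoothTransition.contDiff.comp
      (contDiff_const.mul (contDiff_id.sub contDiff_const))
  · intro a b hab
    apply Real.smoothTransition.monotone
    exact mul_le_mul_of_nonneg_left (by linarith) (Nat.cast_nonneg k)
  · intro x
    rw [abs_of_nonneg (Real.smoothTransition.nonneg _)]
    exact Real.smoothTransition.le_one _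

theorem ind_ge (hG : Good G) (hd : Diss μ G) {z : Lp ℝ 1 μ × Lp ℝ 1 μ} (hz : z ∈ A μ hG) (c : ℝ) :
    0 ≤ ∫ x in {x | z.1 x < c}, z.2 x ∂μ := by
  have h := ind_le hG hd ((A μ hG).neg_mem hz) (-c)
  rw [← integral_indicator (meas_gt _ _)] at h
  rw [← integral_indicator (meas_lt _ _)]
  have : ∫ x, ({x | -c < (-z).1 x}).indicator (fun x => (-z).2 x) x ∂μ =
      -∫ x, ({x | z.1 x < c}).indicator (fun x => z.2 x) x ∂μ := by
    rw [← integral_neg]
    apply integral_congr_ae
    filter_upwards [Lp.coeFn_neg z.1, Lp.coeFn_neg z.2] with x a b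
    rw [← Prod.fst_neg] at a
    rw [← Prod.snd_neg] at b
    by_cases hx : z.1 x < c
    · rw [indicator_of_mem, indicator_of_mem (by exact hx), b, Pi.neg_apply]
      change -c < (-z).1 x
      rw [a, Pi.neg_apply]
      linarith
    · rw [indicator_of_notMem, indicator_of_notMem (by exact hx), neg_zero]
      change ¬ -c < (-z).1 x
      rw [a, Pi.neg_apply]
      linarith
  linarith

/-- Accretivity. -/
theorem accretive (hG : Good G) (hd : Diss μ G) {z : Lp ℝ 1 μ × Lp ℝ 1 μ} (hz : z ∈ A μ hG)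
    {lam : ℝ} (hlam : 0 ≤ lam) : lam * ‖z.1‖ ≤ ‖T μ lam z‖ := by
  rw [L1.norm_eq_integral_norm, L1.norm_eq_integral_norm, ← integral_const_mul]
  have h1 := ind_le hG hd hz 0
  have h2 := ind_ge hG hd hz 0
  rw [← integral_indicator (meas_gt _ _)] at h1
  rw [← integral_indicator (meas_lt _ _)] at h2
  have hi1 : Integrable (({x | 0 < z.1 x}).indicator (fun x => z.2 x)) μ :=
    (L1.integrable_coeFn z.2).indicator (meas_gt _ _)
  have hi2 : Integrable (({x | z.1 x < 0}).indicator (fun x => z.2 x)) μ :=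
    (L1.integrable_coeFn z.2).indicator (meas_lt _ _)
  have hi3 : Integrable (fun x => ‖T μ lam z x‖) μ := (L1.integrable_coeFn _).norm
  have hi4 : Integrable (fun x => (({x | 0 < z.1 x}).indicator (fun x => z.2 x) x -
        ({x | z.1 x < 0}).indicator (fun x => z.2 x) x)) μ := hi1.sub hi2
  have hle : ∫ x, lam * ‖z.1 x‖ ∂μ ≤ ∫ x, (‖T μ lam z x‖ +
      (({x | 0 < z.1 x}).indicator (fun x => z.2 x) x -
        ({x | z.1 x < 0}).indicator (fun x => z.2 x) x)) ∂μ := by
    apply integral_mono_ae ((L1.integrable_coeFn z.1).norm.const_mul _)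
      (hi3.add hi4)
    filter_upwards [T_coe μ lam z] with x hx
    simp only [Pi.add_apply]
    rw [hx]
    simp only [indicator, mem_ofPred_eq, Real.norm_eq_abs]
    rcases lt_trichotomy (z.1 x) 0 with h | h | h
    · rw [if_neg (by linarith), if_pos h, abs_of_neg h]
      have := neg_abs_le (lam * z.1 x - z.2 x)
      linarith
    · rw [h]
      simp
    · rw [if_pos h, if_neg (by linarith), abs_of_pos h]
      have := le_abs_self (lam * z.1 x - z.2 x)
      linarith
  rw [integral_add hi3 hi4, integral_sub hi1 hi2] at hle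
  linarith

theorem norm_le_T (hG : Good G) (hd : Diss μ G) {z : Lp ℝ 1 μ × Lp ℝ 1 μ} (hz : z ∈ A μ hG)
    {lam : ℝ} (hlam : 0 < lam) : ‖z‖ ≤ (max (1 / lam) 2) * ‖T μ lam z‖ := by
  have h := accretive hG hd hz hlam.le
  have h1 : ‖z.1‖ ≤ 1 / lam * ‖T μ lam z‖ := by
    rw [one_div, inv_mul_eq_div, le_div_iff₀ hlam]
    linarith
  have h2 : ‖z.2‖ ≤ 2 * ‖T μ lam z‖ := by
    have h3 : z.2 = lam • z.1 - T μ lam z := by rw [T_apply]; abel
    rw [h3]
    refine (norm_sub_le _ _).trans ?_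
    rw [norm_smul, Real.norm_of_nonneg hlam.le]
    linarith
  rw [Prod.norm_def]
  apply max_le
  · exact h1.trans (mul_le_mul_of_nonneg_right (le_max_left _ _) (norm_nonneg _))
  · exact h2.trans (mul_le_mul_of_nonneg_right (le_max_right _ _) (norm_nonneg _))

/-- Density hypothesis. -/
def Dense' (μ : Measure Ω) (G : Set ((Ω → ℝ) × (Ω → ℝ))) : Prop :=
  ∀ lam > 0, ∀ γ : Ω → ℝ, Measurable γ → (∃ C, ∀ x, |γ x| ≤ C) →
      (∀ p ∈ G, ∫ x, γ x * (lam * p.1 x - p.2 x) ∂μ = 0) → γ =ᵐ[μ] 0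

theorem surj (hG : Good G) (hd : Diss μ G) (hdense : Dense' μ G) {lam : ℝ} (hlam : 0 < lam)
    (f : Lp ℝ 1 μ) : ∃ z ∈ A μ hG, T μ lam z = f := by
  set Φ : A μ hG →ₗ[ℝ] Lp ℝ 1 μ := (T μ lam).toLinearMap.comp (A μ hG).subtype with hΦ
  have hcomplete : CompleteSpace (A μ hG) :=
    (Submodule.isClosed_topologicalClosure (grS μ hG)).completeSpace_coe
  have hanti : AntilipschitzWith (Real.toNNReal (max (1 / lam) 2)) Φ := by
    apply AddMonoidHomClass.antilipschitz_of_bound Φ
    intro z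
    rw [Real.coe_toNNReal _ (by positivity)]
    exact norm_le_T hG hd z.2 hlam
  have hcont : UniformContinuous Φ := by
    have : Continuous Φ := (T μ lam).continuous.comp continuous_subtype_val
    exact (⟨Φ, this⟩ : A μ hG →L[ℝ] Lp ℝ 1 μ).uniformContinuous
  have hcl : IsClosed (range Φ) := hanti.isClosed_range hcont
  have hmem := mem_closure_T μ hG lam f (by
    intro γ hγ hb hs
    have h0 := hdense lam hlam γ hγ hb hs
    have : ∫ x, γ x * f x ∂μ = ∫ x, (0 : ℝ) ∂μ := by
      apply integral_congr_ae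
      filter_upwards [h0] with x hx
      rw [hx]
      simp
    rw [this, integral_zero])
  have hsub : closure (((grS μ hG).map (T μ lam).toLinearMap : Submodule ℝ (Lp ℝ 1 μ)) :
      Set (Lp ℝ 1 μ)) ⊆ range Φ := by
    apply closure_minimal _ hcl
    rintro _ ⟨z, hz, rfl⟩
    exact ⟨⟨z, subset_closure hz⟩, rfl⟩
  obtain ⟨z, hz⟩ := hsub hmem
  exact ⟨z, z.2, hz⟩

theorem posPart_lip (f g : Lp ℝ 1 μ) : ‖Lp.posPart f - Lp.posPart g‖ ≤ ‖f - g‖ := by
  rw [L1.norm_eq_integral_norm, L1.norm_eq_integral_norm]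
  apply integral_mono_ae (L1.integrable_coeFn _).norm (L1.integrable_coeFn _).norm
  filter_upwards [Lp.coeFn_sub (Lp.posPart f) (Lp.posPart g), Lp.coeFn_posPart f,
    Lp.coeFn_posPart g, Lp.coeFn_sub f g] with x a b c d
  rw [a, d, Pi.sub_apply, Pi.sub_apply, b, c]
  exact abs_max_sub_max_le_abs _ _ _

/-- The penalised problem. -/
theorem penalised (hG : Good G) (hd : Diss μ G) (hdense : Dense' μ G) {lam β : ℝ} (hlam : 0 < lam)
    (hβ : 0 < β) (f : Lp ℝ 1 μ) :
    ∃ z ∈ A μ hG, ∀ᵐ x ∂μ, lam * z.1 x - z.2 x = f x + β * max (-(z.1 x)) 0 := by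
  have hs : 0 < lam + β := by positivity
  choose Z hZ hZT using fun g : Lp ℝ 1 μ => surj hG hd hdense hs g
  have hdiff : ∀ g g', (lam + β) * ‖(Z g).1 - (Z g').1‖ ≤ ‖g - g'‖ := by
    intro g g'
    have := accretive hG hd ((A μ hG).sub_mem (hZ g) (hZ g')) hs.le
    rwa [map_sub, hZT, hZT, Prod.fst_sub] at this
  set Ψ : Lp ℝ 1 μ → Lp ℝ 1 μ := fun V => (Z (f + β • Lp.posPart V)).1 with hΨ
  have hcontr : ContractingWith (Real.toNNReal (β / (lam + β))) Ψ := by
    constructor
    · rw [← NNReal.coe_lt_coe, Real.coe_toNNReal _ (by positivity), NNReal.coe_one,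
        div_lt_one hs]
      linarith
    · apply LipschitzWith.of_dist_le_mul
      intro V V'
      rw [Real.coe_toNNReal _ (by positivity), dist_eq_norm, dist_eq_norm]
      have h1 := hdiff (f + β • Lp.posPart V) (f + β • Lp.posPart V')
      rw [add_sub_add_left_eq_sub, ← smul_sub, norm_smul, Real.norm_of_nonneg hβ.le] at h1
      have h2 := posPart_lip V V'
      rw [div_mul_eq_mul_div, le_div_iff₀ hs]
      calc ‖Ψ V - Ψ V'‖ * (lam + β) = (lam + β) * ‖Ψ V - Ψ V'‖ := mul_comm _ _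
        _ ≤ β * ‖Lp.posPart V - Lp.posPart V'‖ := h1
        _ ≤ β * ‖V - V'‖ := mul_le_mul_of_nonneg_left h2 hβ.le
  set V := ContractingWith.fixedPoint Ψ hcontr with hV
  have hfix : Ψ V = V := hcontr.fixedPoint_isFixedPt
  obtain ⟨z, hzA, hz1, hzT⟩ : ∃ z ∈ A μ hG, z.1 = V ∧ T μ (lam + β) z = f + β • Lp.posPart V :=
    ⟨Z (f + β • Lp.posPart V), hZ _, hfix, hZT _⟩
  rw [← hz1] at hzT
  refine ⟨z, hzA, ?_⟩
  have h1 := T_coe μ (lam + β) z
  rw [hzT] at h1
  filter_upwards [h1, Lp.coeFn_add f (β • Lp.posPart z.1), Lp.coeFn_smul β (Lp.posPart z.1),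
    Lp.coeFn_posPart z.1] with x a b c d
  rw [b, Pi.add_apply, c, Pi.smul_apply, d, smul_eq_mul] at a
  rcases le_total 0 (z.1 x) with h | h
  · rw [max_eq_left h] at a
    rw [max_eq_right (by linarith)]
    linarith
  · rw [max_eq_right h] at a
    rw [max_eq_left (by linarith)]
    linarith

theorem measure_zero_of_pos {g : Ω → ℝ} (hg : Integrable g μ) {S : Set Ω} (hS : MeasurableSet S)
    (hpos : ∀ᵐ x ∂μ, x ∈ S → 0 < g x) (hint : ∫ x in S, g x ∂μ ≤ 0) : μ S = 0 := by
  by_contra hne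
  have h0 : 0 ≤ᵐ[μ.restrict S] g := by
    rw [EventuallyLE, ae_restrict_iff' hS]
    filter_upwards [hpos] with x hx hxS using (hx hxS).le
  have h1 := (setIntegral_pos_iff_support_of_nonneg_ae h0 hg.integrableOn).2 (by
    have : μ (Function.support g ∩ S) = μ S := by
      apply measure_congr
      filter_upwards [hpos] with x hx
      apply propext
      constructor
      · exact fun h => h.2
      · exact fun h => ⟨(hx h).ne', h⟩
    rw [this]
    exact pos_iff_ne_zero.2 hne)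
  linarith

/-- upper bound -/
theorem upper (hG : Good G) (hd : Diss μ G) {lam β B : ℝ} (hlam : 0 < lam) (hB0 : 0 ≤ B)
    {f : Ω → ℝ} (hB : ∀ x, |f x| ≤ B)
    {z : Lp ℝ 1 μ × Lp ℝ 1 μ} (hz : z ∈ A μ hG)
    (he : ∀ᵐ x ∂μ, lam * z.1 x - z.2 x = f x + β * max (-(z.1 x)) 0) :
    ∀ᵐ x ∂μ, z.1 x ≤ B / lam := by
  have h := ind_le hG hd hz (B / lam)
  have h0 := measure_zero_of_pos (L1.integrable_coeFn z.2) (meas_gt z.1 (B / lam)) (by
    filter_upwards [he] with x hx hS
    have hS' : B / lam < z.1 x := hS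
    have h1 : 0 ≤ B / lam := by positivity
    rw [max_eq_right (by linarith)] at hx
    rw [div_lt_iff₀ hlam] at hS'
    have := (abs_le.1 (hB x)).2
    linarith) h
  rw [measure_eq_zero_iff_ae_notMem] at h0
  filter_upwards [h0] with x hx
  exact not_lt.1 hx

/-- lower bound -/
theorem lower (hG : Good G) (hd : Diss μ G) {lam β B : ℝ} (hlam : 0 < lam) (hβ : 0 < β)
    (hB0 : 0 ≤ B)
    {f : Ω → ℝ} (hB : ∀ x, |f x| ≤ B)
    {z : Lp ℝ 1 μ × Lp ℝ 1 μ} (hz : z ∈ A μ hG)
    (he : ∀ᵐ x ∂μ, lam * z.1 x - z.2 x = f x + β * max (-(z.1 x)) 0) :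
    ∀ᵐ x ∂μ, -(B / β) ≤ z.1 x := by
  have h := ind_ge hG hd hz (-(B / β))
  have h0 := measure_zero_of_pos (L1.integrable_coeFn z.2).neg (meas_lt z.1 (-(B / β))) (by
    filter_upwards [he] with x hx hS
    have hS' : z.1 x < -(B / β) := hS
    have h1 : 0 ≤ B / β := by positivity
    rw [max_eq_left (by linarith)] at hx
    have h2 : B < β * -(z.1 x) := by
      have : B / β < -(z.1 x) := by linarith
      rw [div_lt_iff₀ hβ] at this
      linarith
    have h3 : lam * z.1 x ≤ 0 := mul_nonpos_of_nonneg_of_nonpos hlam.le (by linarith)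
    have := (abs_le.1 (hB x)).1
    simp only [Pi.neg_apply]
    linarith) (by
    simp only [Pi.neg_apply]
    rw [integral_neg]
    linarith)
  rw [measure_eq_zero_iff_ae_notMem] at h0
  filter_upwards [h0] with x hx
  exact not_lt.1 hx

/-- comparison -/
theorem compare (hG : Good G) (hd : Diss μ G) {lam β lam' β' : ℝ} (hlam' : 0 < lam')
    (hβ' : 0 < β') (hll : lam' ≤ lam) (hs : lam + β ≤ lam' + β')
    {f : Ω → ℝ}
    {z z' : Lp ℝ 1 μ × Lp ℝ 1 μ} (hz : z ∈ A μ hG) (hz' : z' ∈ A μ hG)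
    (he : ∀ᵐ x ∂μ, lam * z.1 x - z.2 x = f x + β * max (-(z.1 x)) 0)
    (he' : ∀ᵐ x ∂μ, lam' * z'.1 x - z'.2 x = f x + β' * max (-(z'.1 x)) 0) (hβ : 0 < β) :
    ∀ᵐ x ∂μ, z.1 x ≤ z'.1 x := by
  have hlam : 0 < lam := hlam'.trans_le hll
  have h := ind_le hG hd ((A μ hG).sub_mem hz hz') 0
  have hc1 := Lp.coeFn_sub z.1 z'.1
  have hc2 := Lp.coeFn_sub z.2 z'.2
  rw [← Prod.fst_sub] at hc1
  rw [← Prod.snd_sub] at hc2
  have h0 := measure_zero_of_pos (L1.integrable_coeFn (z - z').2) (meas_gt (z - z').1 0) (by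
    filter_upwards [he, he', hc1, hc2] with x hx hx' a b hS
    have hS' : 0 < (z - z').1 x := hS
    rw [a, Pi.sub_apply] at hS'
    rw [b, Pi.sub_apply]
    have hS2 : z'.1 x < z.1 x := by linarith
    set u := z.1 x with hu
    set v := z'.1 x with hv
    rcases le_total 0 v with hv0 | hv0
    · have hu0 : 0 ≤ u := hv0.trans hS2.le
      rw [max_eq_right (by linarith)] at hx hx'
      have h1 : lam' * v ≤ lam * v := mul_le_mul_of_nonneg_right hll hv0
      have h2 : lam * v < lam * u := mul_lt_mul_of_pos_left hS2 hlam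
      linarith
    · rw [max_eq_left (by linarith)] at hx'
      have h1 : (lam' + β') * v ≤ (lam + β) * v := mul_le_mul_of_nonpos_right hs hv0
      rcases le_total 0 u with hu0 | hu0
      · rw [max_eq_right (by linarith)] at hx
        have h2 : (lam + β) * v ≤ 0 := mul_nonpos_of_nonneg_of_nonpos (by positivity) hv0
        have h3 : 0 ≤ lam * u := by positivity
        rcases hu0.lt_or_eq with hu1 | hu1
        · have : 0 < lam * u := by positivity
          linarith
        · have hv1 : v < 0 := by rw [hu1]; exact hS2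
          have : (lam + β) * v < 0 := mul_neg_of_pos_of_neg (by positivity) hv1
          linarith
      · rw [max_eq_left (by linarith)] at hx
        have h2 : (lam + β) * v < (lam + β) * u := mul_lt_mul_of_pos_left hS2 (by positivity)
        linarith) h
  rw [measure_eq_zero_iff_ae_notMem] at h0
  filter_upwards [h0, hc1] with x hx a
  have hx' : ¬ 0 < (z - z').1 x := hx
  rw [a, Pi.sub_apply] at hx'
  linarith

/-- E. Functional analysis: the penalised obstacle problem and the maximal inequality. -/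
theorem fa_main {Ω : Type*} [MeasurableSpace Ω] (μ : Measure Ω) [IsFiniteMeasure μ]
    (G : Set ((Ω → ℝ) × (Ω → ℝ))) (hne : G.Nonempty)
    (hlin : ∀ p ∈ G, ∀ q ∈ G, ∀ c : ℝ, p + c • q ∈ G)
    (hmeas : ∀ p ∈ G, Measurable p.1 ∧ Measurable p.2)
    (hbdd : ∀ p ∈ G, ∃ C, ∀ x, |p.1 x| ≤ C ∧ |p.2 x| ≤ C)
    (hdiss : ∀ p ∈ G, ∀ β : ℝ → ℝ, ContDiff ℝ ∞ β → Monotone β → (∀ x, |β x| ≤ 1) →
      ∫ x, β (p.1 x) * p.2 x ∂μ ≤ 0)
    (hdense : ∀ lam > 0, ∀ γ : Ω → ℝ, Measurable γ → (∃ C, ∀ x, |γ x| ≤ C) →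
      (∀ p ∈ G, ∫ x, γ x * (lam * p.1 x - p.2 x) ∂μ = 0) → γ =ᵐ[μ] 0)
    (f : Ω → ℝ) (hf : Measurable f) (B : ℝ) (hB : ∀ x, |f x| ≤ B) :
    ∃ (U W : ℕ → Ω → ℝ) (u : ℕ → ℕ → (Ω → ℝ) × (Ω → ℝ)),
      (∀ n, Measurable (U n)) ∧ (∀ n, Measurable (W n)) ∧ (∀ n j, u n j ∈ G) ∧
      (∀ n, ∫⁻ x, (‖(u n 0).1 x‖ₑ + ‖(u n 0).2 x‖ₑ + ∑' j, (‖(u n (j + 1)).1 x - (u n j).1 x‖ₑ +
        ‖(u n (j + 1)).2 x - (u n j).2 x‖ₑ)) ∂μ < ⊤) ∧
      (∀ n, ∀ᵐ x ∂μ, Tendsto (fun j => (u n j).1 x) atTop (𝓝 (U n x)) ∧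
        Tendsto (fun j => (u n j).2 x) atTop (𝓝 (W n x))) ∧
      (∀ n : ℕ, ∀ᵐ x ∂μ, 1 / ((n : ℝ) + 1) * U n x - W n x =
        f x + ((n : ℝ) + 1) * max (-(U n x)) 0) ∧
      (∀ n : ℕ, ∀ᵐ x ∂μ, -(B / ((n : ℝ) + 1)) ≤ U n x ∧ U n x ≤ B * ((n : ℝ) + 1)) ∧
      0 ≤ ∫ x in ⋃ n, {x | 0 < U n x}, f x ∂μ := by
  have hG : Good G := ⟨hne, hlin, hmeas, hbdd⟩
  have hfi : Integrable f μ :=
    Integrable.of_bound hf.aestronglyMeasurable B (Eventually.of_forall hB)
  have hn1 : ∀ n : ℕ, (0 : ℝ) < (n : ℝ) + 1 := fun n => by positivity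
  have hl1 : ∀ n : ℕ, (0 : ℝ) < 1 / ((n : ℝ) + 1) := fun n => by positivity
  choose z hz he0 using fun n : ℕ =>
    penalised hG hdiss hdense (hl1 n) (hn1 n) (hfi.toL1 f)
  have he : ∀ n : ℕ, ∀ᵐ x ∂μ, 1 / ((n : ℝ) + 1) * (z n).1 x - (z n).2 x =
      f x + ((n : ℝ) + 1) * max (-((z n).1 x)) 0 := by
    intro n
    filter_upwards [he0 n, Integrable.coeFn_toL1 hfi] with x a b
    rw [a, b]
  choose u hu hfin using fun n => fast μ hG (hz n)
  have hcmp : ∀ n, ∀ᵐ x ∂μ, (z n).1 x ≤ (z (n + 1)).1 x := by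
    intro n
    refine compare hG hdiss (hl1 (n + 1)) (hn1 (n + 1)) ?_ ?_ (hz n) (hz (n + 1)) (he n)
      (he (n + 1)) (hn1 n)
    · apply one_div_le_one_div_of_le (hn1 n)
      push_cast
      linarith
    · have h1 : 1 / ((n : ℝ) + 1) ≤ 1 := by
        rw [div_le_one (hn1 n)]
        have : (0 : ℝ) ≤ n := Nat.cast_nonneg n
        linarith
      have h2 := hl1 (n + 1)
      push_cast at h2 ⊢
      linarith
  have hset : ∀ n, 0 ≤ ∫ x in {x | 0 < (z n).1 x}, f x ∂μ := by
    intro n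
    have h1 := ind_le hG hdiss (hz n) 0
    have h2 : ∫ x in {x | 0 < (z n).1 x}, f x ∂μ =
        ∫ x in {x | 0 < (z n).1 x}, (1 / ((n : ℝ) + 1) * (z n).1 x - (z n).2 x) ∂μ := by
      apply setIntegral_congr_ae (meas_gt _ _)
      filter_upwards [he n] with x hx hS
      have hS' : 0 < (z n).1 x := hS
      rw [hx, max_eq_right (by linarith)]
      ring
    have i1 : Integrable (fun x => 1 / ((n : ℝ) + 1) * (z n).1 x)
        (μ.restrict {x | 0 < (z n).1 x}) :=
      ((L1.integrable_coeFn (z n).1).const_mul (1 / ((n : ℝ) + 1))).integrableOn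
    have i2 : Integrable (fun x => (z n).2 x) (μ.restrict {x | 0 < (z n).1 x}) :=
      (L1.integrable_coeFn (z n).2).integrableOn
    rw [h2, integral_sub i1 i2]
    have h3 : 0 ≤ ∫ x in {x | 0 < (z n).1 x}, 1 / ((n : ℝ) + 1) * (z n).1 x ∂μ := by
      apply setIntegral_nonneg (meas_gt _ _)
      intro x hx
      exact mul_nonneg (hl1 n).le (le_of_lt hx)
    linarith
  refine ⟨fun n => (z n).1, fun n => (z n).2, u, fun n => (Lp.stronglyMeasurable _).measurable,
    fun n => (Lp.stronglyMeasurable _).measurable, hu, fun n => fast_sum μ hG (hu n) (hfin n),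
    fun n => fast_tendsto μ hG (hu n) (hfin n), he, ?_, ?_⟩
  · intro n
    rcases isEmpty_or_nonempty Ω with hE | ⟨⟨x0⟩⟩
    · exact Eventually.of_forall fun x => hE.elim x
    · have hB0 : 0 ≤ B := (abs_nonneg _).trans (hB x0)
      have h1 := upper hG hdiss (hl1 n) hB0 hB (hz n) (he n)
      have h2 := lower hG hdiss (hl1 n) (hn1 n) hB0 hB (hz n) (he n)
      filter_upwards [h1, h2] with x a b
      refine ⟨b, a.trans (le_of_eq ?_)⟩
      rw [div_div_eq_mul_div, div_one]
  · set S : ℕ → Set Ω := fun n => ⋃ k ∈ Finset.range (n + 1), {x | 0 < (z k).1 x} with hS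
    have hSm : ∀ n, MeasurableSet (S n) := fun n =>
      Finset.measurableSet_biUnion _ fun k _ => meas_gt _ _
    have hSmono : Monotone S := by
      intro a b hab
      simp only [hS]
      apply biUnion_subset_biUnion_left
      intro k hk
      simp only [Finset.coe_range, mem_Iio] at hk ⊢
      omega
    have hSU : (⋃ n, S n) = ⋃ n, {x | 0 < (z n).1 x} := by
      apply subset_antisymm
      · apply iUnion_subset
        intro n
        exact iUnion₂_subset fun k _ => subset_iUnion (fun n => {x | 0 < (z n).1 x}) k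
      · apply iUnion_subset
        intro n
        refine subset_trans ?_ (subset_iUnion S n)
        exact subset_biUnion_of_mem (u := fun k => {x | 0 < (z k).1 x}) (Finset.mem_range.2 (by omega))
    have hmono : ∀ᵐ x ∂μ, Monotone fun n => (z n).1 x := by
      have := ae_all_iff.2 hcmp
      filter_upwards [this] with x hx
      exact monotone_nat_of_le_succ hx
    have hSae : ∀ n, (S n : Set Ω) =ᵐ[μ] {x | 0 < (z n).1 x} := by
      intro n
      filter_upwards [hmono] with x hx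
      apply propext
      constructor
      · intro h
        have h' : x ∈ S n := h
        simp only [hS, mem_iUnion, Finset.mem_range, mem_ofPred_eq] at h'
        obtain ⟨k, hk, h3⟩ := h'
        exact lt_of_lt_of_le h3 (hx (by omega : k ≤ n))
      · intro h
        have : x ∈ S n := by
          simp only [hS, mem_iUnion, Finset.mem_range, mem_ofPred_eq]
          exact ⟨n, by omega, h⟩
        exact this
    have hlim := tendsto_setIntegral_of_monotone hSm hSmono (f := f) (μ := μ) hfi.integrableOn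
    rw [hSU] at hlim
    refine ge_of_tendsto' hlim fun n => ?_
    rw [setIntegral_congr_set (hSae n)]
    exact hset n

end Pool.Agent.H51.Nev
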