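import Mathlib

open MeasureTheory Set Filter Topology
open scoped ENNReal ContDiff InnerProductSpace

namespace Pool.Agent.H51.Nev

variable {Ω : Type*} [MeasurableSpace Ω] (μ : Measure Ω) [IsFiniteMeasure μ]

/-- The inclusion of `L²` into `L¹` for a finite measure. -/
noncomputable def incl : Lp ℝ 2 μ →L[ℝ] Lp ℝ 1 μ :=
  LinearMap.mkContinuous
    { toFun := fun g => ⟨g.1, Lp.antitone (by norm_num) g.2⟩
      map_add' := by intros; rfl
      map_smul' := by intros; rfl }
    (μ univ ^ ((1 : ℝ) / (1 : ℝ≥0∞).toReal - 1 / (2 : ℝ≥0∞).toReal)).toReal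
    (by
      intro g
      have h := eLpNorm_le_eLpNorm_mul_rpow_measure_univ (μ := μ) (p := 1) (q := 2) (by norm_num)
        (Lp.aestronglyMeasurable g)
      have hfin : (μ univ ^ ((1 : ℝ) / (1 : ℝ≥0∞).toReal - 1 / (2 : ℝ≥0∞).toReal)) ≠ ⊤ := by
        apply ENNReal.rpow_ne_top_of_nonneg
        · norm_num
        · exact measure_ne_top μ _
      rw [Lp.norm_def, Lp.norm_def, ← ENNReal.toReal_mul, mul_comm]
      exact ENNReal.toReal_mono (ENNReal.mul_ne_top (Lp.eLpNorm_ne_top g) hfin) h)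

theorem incl_coe (g : Lp ℝ 2 μ) : ((incl μ g : Lp ℝ 1 μ) : Ω → ℝ) = g := rfl

/-- Dual of `L¹` for a finite measure. -/
theorem l1_dual (Λ : StrongDual ℝ (Lp ℝ 1 μ)) :
    ∃ γ : Ω → ℝ, Measurable γ ∧ (∃ C, ∀ x, |γ x| ≤ C) ∧
      ∀ g : Lp ℝ 1 μ, Λ g = ∫ x, γ x * g x ∂μ := by
  classical
  set Λ2 : StrongDual ℝ (Lp ℝ 2 μ) := Λ.comp (incl μ) with hΛ2
  set γ0 : Lp ℝ 2 μ := (InnerProductSpace.toDual ℝ (Lp ℝ 2 μ)).symm Λ2 with hγ0
  have hset : ∀ s (hs : MeasurableSet s), ∫ x in s, γ0 x ∂μ =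
      Λ (indicatorConstLp 1 hs (measure_ne_top μ s) (1 : ℝ)) := by
    intro s hs
    have h1 := L2.inner_indicatorConstLp_one (𝕜 := ℝ) hs (measure_ne_top μ s) γ0
    rw [← h1, real_inner_comm, hγ0, InnerProductSpace.toDual_symm_apply, hΛ2]
    simp only [ContinuousLinearMap.comp_apply]
    congr 1
  have hbound : ∀ s (hs : MeasurableSet s), |∫ x in s, γ0 x ∂μ| ≤ ‖Λ‖ * μ.real s := by
    intro s hs
    rw [hset s hs, ← Real.norm_eq_abs]
    refine (Λ.le_opNorm _).trans ?_
    rw [norm_indicatorConstLp (by norm_num) (by norm_num)]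
    simp
  have hint : Integrable (γ0 : Ω → ℝ) μ :=
    (Lp.memLp γ0).integrable (by norm_num)
  have hle : (γ0 : Ω → ℝ) ≤ᵐ[μ] fun _ => ‖Λ‖ := by
    apply ae_le_of_forall_setIntegral_le hint (integrable_const _)
    intro s hs _
    rw [setIntegral_const, smul_eq_mul, mul_comm]
    exact (le_abs_self _).trans (hbound s hs)
  have hge : (fun _ => -‖Λ‖) ≤ᵐ[μ] (γ0 : Ω → ℝ) := by
    apply ae_le_of_forall_setIntegral_le (integrable_const _) hint
    intro s hs _
    rw [setIntegral_const, smul_eq_mul]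
    have := (neg_abs_le _).trans' (neg_le_neg (hbound s hs))
    linarith
  -- bounded measurable representative
  obtain ⟨γ1, hγ1m, hγ1⟩ := (Lp.aestronglyMeasurable γ0).aemeasurable
  set γ : Ω → ℝ := fun x => max (-‖Λ‖) (min ‖Λ‖ (γ1 x)) with hγ
  have hγm : Measurable γ := measurable_const.max (measurable_const.min hγ1m)
  have hγb : ∀ x, |γ x| ≤ ‖Λ‖ := by
    intro x
    rw [abs_le]
    refine ⟨le_max_left _ _, max_le ?_ (min_le_left _ _)⟩
    linarith [norm_nonneg Λ]
  have hγe : γ =ᵐ[μ] (γ0 : Ω → ℝ) := by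
    filter_upwards [hle, hge, hγ1] with x h1 h2 h3
    simp only [hγ]
    rw [← h3, min_eq_right h1, max_eq_right h2]
  refine ⟨γ, hγm, ⟨_, hγb⟩, ?_⟩
  have hmulint : ∀ g : Lp ℝ 1 μ, Integrable (fun x => γ x * g x) μ := by
    intro g
    exact (L1.integrable_coeFn g).bdd_mul hγm.aestronglyMeasurable (Eventually.of_forall hγb)
  have hcont : Continuous fun g : Lp ℝ 1 μ => ∫ x, γ x * g x ∂μ := by
    have : LipschitzWith ⟨‖Λ‖, norm_nonneg _⟩ fun g : Lp ℝ 1 μ => ∫ x, γ x * g x ∂μ := by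
      apply LipschitzWith.of_dist_le_mul
      intro g g'
      rw [dist_eq_norm, dist_eq_norm, L1.norm_eq_integral_norm, ← integral_sub (hmulint g) (hmulint g')]
      refine (norm_integral_le_integral_norm _).trans ?_
      change _ ≤ ‖Λ‖ * _
      rw [← integral_const_mul]
      apply integral_mono_ae
      · exact ((hmulint g).sub (hmulint g')).norm
      · exact (L1.integrable_coeFn (g - g')).norm.const_mul _
      · filter_upwards [Lp.coeFn_sub g g'] with x hx
        simp only [hx, Pi.sub_apply]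
        rw [← mul_sub, norm_mul]
        exact mul_le_mul_of_nonneg_right (hγb x) (norm_nonneg _)
    exact this.continuous
  intro g
  refine Lp.induction (p := 1) ENNReal.one_ne_top
    (motive := fun g : Lp ℝ 1 μ => Λ g = ∫ x, γ x * g x ∂μ) ?_ ?_ ?_ g
  · intro c s hs hμs
    rw [Lp.simpleFunc.coe_indicatorConst]
    have h1 : indicatorConstLp 1 hs hμs.ne c = c • indicatorConstLp 1 hs (measure_ne_top μ s) (1 : ℝ) := by
      apply Lp.ext
      filter_upwards [indicatorConstLp_coeFn (p := 1) (hs := hs) (hμs := hμs.ne) (c := c),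
        Lp.coeFn_smul c (indicatorConstLp 1 hs (measure_ne_top μ s) (1 : ℝ)),
        indicatorConstLp_coeFn (p := 1) (hs := hs) (hμs := measure_ne_top μ s) (c := (1 : ℝ))]
        with x h1 h2 h3
      rw [h1, h2, Pi.smul_apply, h3]
      by_cases hx : x ∈ s <;> simp [hx]
    have h2 : ∫ x, γ x * (indicatorConstLp 1 hs hμs.ne c : Lp ℝ 1 μ) x ∂μ = c * ∫ x in s, γ0 x ∂μ := by
      rw [← integral_indicator hs, ← integral_const_mul]
      apply integral_congr_ae
      filter_upwards [indicatorConstLp_coeFn (p := 1) (hs := hs) (hμs := hμs.ne) (c := c), hγe]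
        with x h1 h2
      rw [h1, h2]
      by_cases hx : x ∈ s <;> simp [hx, mul_comm]
    rw [h2, hset s hs, h1, map_smul, smul_eq_mul]
  · intro f g hf hg _ h1 h2
    rw [map_add, h1, h2, ← integral_add (hmulint _) (hmulint _)]
    apply integral_congr_ae
    filter_upwards [Lp.coeFn_add (hf.toLp f) (hg.toLp g)] with x hx
    rw [hx, Pi.add_apply, mul_add]
  · exact isClosed_eq Λ.continuous hcont

/-- Hahn-Banach for subspaces of `L¹`: an element which is annihilated by every bounded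
measurable function annihilating the subspace belongs to the closure. -/
theorem mem_closure_of_annihilator (S : Submodule ℝ (Lp ℝ 1 μ)) (f : Lp ℝ 1 μ)
    (h : ∀ γ : Ω → ℝ, Measurable γ → (∃ C, ∀ x, |γ x| ≤ C) →
      (∀ s ∈ S, ∫ x, γ x * s x ∂μ = 0) → ∫ x, γ x * f x ∂μ = 0) :
    f ∈ closure (S : Set (Lp ℝ 1 μ)) := by
  by_contra hf
  have hconv : Convex ℝ (closure (S : Set (Lp ℝ 1 μ))) := S.convex.closure
  obtain ⟨Λ, u, hlt, hfu⟩ := geometric_hahn_banach_closed_point hconv isClosed_closure hf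
  obtain ⟨γ, hγm, hγb, hγ⟩ := l1_dual μ Λ
  have h0 : ∀ s ∈ S, Λ s = 0 := by
    intro s hs
    by_contra hne
    have hu : 0 < u := by
      have := hlt 0 (subset_closure S.zero_mem)
      simpa using this
    have := hlt ((u / Λ s) • s) (subset_closure (S.smul_mem _ hs))
    rw [map_smul, smul_eq_mul, div_mul_cancel₀ _ hne] at this
    exact lt_irrefl _ this
  have h1 := h γ hγm hγb (fun s hs => by rw [← hγ s]; exact h0 s hs)
  rw [← hγ f] at h1
  have hu : 0 < u := by
    have := hlt 0 (subset_closure S.zero_mem)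
    simpa using this
  linarith

end Pool.Agent.H51.Nev
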